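import Pool.Agent.helper44.EX.Spec
import Pool.Agent.helper26.UP.NRec

/-!
# Project nr: (MP_af9036_an): neutral first returns at arbitrarily small scales, absolute constant

Paper: /team-store/MP_af9036_NR_helper56.md (helper56; refereed by helper36, helper88). MAIN THEOREM (`FIN_stmt`): there is an
absolute `M` such that for `n ≥ 3` and `c ∈ M_n` outside the closure of the hyperbolic parameters there are arbitrarily small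
`ξ > 0` for which the first return of the critical point `0` to `ball 0 (5 ξ)` is neutral: `¬ Expd n c M ξ`, i.e. the branch `G` of
`f^{-(q-1)}` on `ball 0 (5 ξ)` with `G (f^q 0) = c` has `‖G w - c‖ ≥ ξ ^ n / M` for some `w ∈ ball 0 (22/5 ξ)`.

RULES. File `Pool/Agent/<seat>/NR/XX.lean`, `import Pool.Agent.helper56.NR.Spec` (and any proved module you want to use),
`set_option autoImplicit false`, `open Complex Metric Set Filter Topology MeasureTheory Pool.Agent.helper98.ILF`, `open EX (ff)`,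
`noncomputable section`, `namespace NR`, `theorem XX (h : YY_stmt) ... : XX_stmt`. Any other statement of this file and of
`V3` (`V3.KO0_stmt`, `V3.KO1_stmt`, `V3.KO3_stmt`, all proved), `EX` (`EX.LIF_stmt`, `EX.MOB_stmt`, `EX.STR_stmt`, `EX.NZR_stmt`, all
proved) may be a hypothesis (no circles). Auxiliary lemmas prefixed `XX_`. No `sorry`, no straight double quotes in comments.

Notation: `f = ff n c`, `v m = vv n c m = f^m(c)` (critical value orbit, `v 0 = c`, `v m = f^(m+1)(0)`, `v s - c = (f^s 0)^n`).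
`UP.ff n c = EX.ff n c` and `(fun z => z ^ n + c) = ff n c` by `rfl`.
-/

set_option autoImplicit false

open Complex Metric Set Filter Topology MeasureTheory Pool.Agent.helper98.ILF

open EX (ff)

noncomputable section

namespace NR

/-! ## Definitions -/

/-- the orbit of the critical value. -/
def vv (n : ℕ) (c : ℂ) (m : ℕ) : ℂ := (ff n c)^[m] c

/-- `G` is a branch of the inverse of `f^m` on `ball y r`. -/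
def Brc (n : ℕ) (c : ℂ) (m : ℕ) (y : ℂ) (r : ℝ) (G : ℂ → ℂ) : Prop :=
  DifferentiableOn ℂ G (ball y r) ∧ ∀ w ∈ ball y r, (ff n c)^[m] (G w) = w

/-- the first return of the critical point to `ball 0 (5 ξ)` shrinks by the factor `M`. -/
def Expd (n : ℕ) (c : ℂ) (M ξ : ℝ) : Prop := ∀ (m : ℕ) (G : ℂ → ℂ), (∀ l < m, 5 * ξ ≤ ‖vv n c l‖) →
  ‖vv n c m‖ < 5 * ξ → Brc n c m 0 (5 * ξ) G → G (vv n c m) = c →
  ∀ w ∈ ball (0 : ℂ) (22 / 5 * ξ), ‖G w - c‖ < ξ ^ n / M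

/-- the inequality (Q) for a sequence of lengths `l` and numbers `β`, indices `0, ..., K`. -/
def Qc (a : ℝ) (K : ℕ) (l β : ℕ → ℝ) : Prop := ∀ i k : ℕ, i < k → k ≤ K →
  ∑ m ∈ Finset.Ioo i k, l m ≤ l k / 2 → a * min 1 (l k / l i) * β i ≤ β k

/-- a chain of obstacles: `e k = vv n c (mm k)`, `G k` the branch of `f^{-mm k}` on the disc of radius `l k` about `e k` with
`G k (e k) = c`, `e (k+1)` on the boundary of this disc, `g k` the branch of `f^{-mm (k+1)}` on a larger concentric disc with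
`g k (e (k+1)) = c`. -/
structure Chn (n : ℕ) (c : ℂ) (N : ℕ) (mm : ℕ → ℕ) (l l' : ℕ → ℝ) (G g : ℕ → ℂ → ℂ) : Prop where
  lt : ∀ k < N, mm (k + 1) < mm k
  last : mm N = 0
  pos : ∀ k < N, 0 < l k
  lt' : ∀ k < N, l k < l' k
  dist : ∀ k < N, ‖vv n c (mm (k + 1)) - vv n c (mm k)‖ = l k
  br : ∀ k < N, Brc n c (mm k) (vv n c (mm k)) (l k) (G k)
  ce : ∀ k < N, G k (vv n c (mm k)) = c
  br' : ∀ k < N, Brc n c (mm (k + 1)) (vv n c (mm k)) (l' k) (g k)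
  ce' : ∀ k < N, g k (vv n c (mm (k + 1))) = c
  co : ∀ k < N, ∀ w ∈ ball (vv n c (mm k)) (l k), (ff n c)^[mm k - mm (k + 1)] (G k w) = g k w

/-! ## Basic facts (proved here) -/

theorem Brc.inj {n : ℕ} {c : ℂ} {m : ℕ} {y : ℂ} {r : ℝ} {G : ℂ → ℂ} (h : Brc n c m y r G) :
    InjOn G (ball y r) := by
  intro a ha b hb hab
  have h1 := h.2 a ha
  rw [hab, h.2 b hb] at h1
  exact h1.symm

theorem Brc.mono {n : ℕ} {c : ℂ} {m : ℕ} {y y' : ℂ} {r r' : ℝ} {G : ℂ → ℂ} (h : Brc n c m y r G)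
    (hs : ball y' r' ⊆ ball y r) : Brc n c m y' r' G :=
  ⟨h.1.mono hs, fun w hw => h.2 w (hs hw)⟩

theorem ff_diff (n : ℕ) (c : ℂ) : Differentiable ℂ (ff n c) := by
  unfold ff
  fun_prop

theorem ffi_diff (n : ℕ) (c : ℂ) (k : ℕ) : Differentiable ℂ ((ff n c)^[k]) :=
  (ff_diff n c).iterate k

/-- the image of a branch under an iterate is a branch. -/
theorem Brc.comp {n : ℕ} {c : ℂ} {m k : ℕ} {y : ℂ} {r : ℝ} {G : ℂ → ℂ} (h : Brc n c m y r G)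
    (hk : k ≤ m) : Brc n c k y r (fun w => (ff n c)^[m - k] (G w)) := by
  refine ⟨(ffi_diff n c (m - k)).comp_differentiableOn h.1, fun w hw => ?_⟩
  rw [← Function.iterate_add_apply, Nat.add_sub_cancel' hk]
  exact h.2 w hw

theorem vv_zero (n : ℕ) (c : ℂ) : vv n c 0 = c := rfl

theorem vv_succ (n : ℕ) (c : ℂ) (m : ℕ) : vv n c (m + 1) = vv n c m ^ n + c := by
  unfold vv
  rw [Function.iterate_succ_apply']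
  rfl

theorem iter_vv (n : ℕ) (c : ℂ) (k m : ℕ) : (ff n c)^[k] (vv n c m) = vv n c (k + m) := by
  unfold vv
  rw [Function.iterate_add_apply]

theorem vv_eq (n : ℕ) (c : ℂ) (hn : 1 ≤ n) (m : ℕ) : vv n c m = (ff n c)^[m + 1] 0 := by
  unfold vv
  rw [Function.iterate_succ_apply]
  congr 1
  unfold ff
  rw [zero_pow (by omega), zero_add]

theorem vv_sub (n : ℕ) (c : ℂ) (hn : 1 ≤ n) (s : ℕ) : vv n c s - c = ((ff n c)^[s] 0) ^ n := by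
  rw [vv_eq n c hn, Function.iterate_succ_apply']
  unfold ff
  ring

/-! ## Part A: combinatorics of chains -/

/-- WIN (short/medium): the window lemma. `Icc p q ⊆ {0,..,K}` is a segment on which the conclusion of XL is known for all sub-segments; here only the segments of `Ico p m`.
PROOF. Let `m''` be the smallest index `≥ p` with `∑_(Ioo m'' m) l ≤ l m / 2` (`m - 1` has this property: empty sum; `p < m` because `∑_(Ico p m) l > 0`). Then `∑_(Ico m'' m) l > l m / 2`: for `m'' = p` this is the hypothesis, otherwise `m'' - 1` fails and `Ioo (m''-1) m = Ico m'' m`. So `p ≤ m'' < m`.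
Case `l m'' ≥ l m / 4`: (Q) for `(m'', m)`: `β m ≥ a min(1, l m/l m'') β m''`, and `min(1, l m/l m'') ≥ l m/(4 l m'')` (as `l m / (4 l m'') ≤ 1`), so `β m ≥ (a/4) (l m/l m'') β m''`, `l m ≤ (4/a) (l m''/β m'') β m ≤ (4 τ/a) β m`.
Case `l m'' < l m / 4`: `∑_(Ioo m'' m) l > l m / 4`, so `Ioo m'' m = Icc (m''+1) (m-1)` is not empty; let `j` be an index of it with `β j` maximal. The hypothesis `hL` for this segment with `B = β j`: `l m / 4 < 2 τ β j`. (Q) for `(j, m)`: `∑_(Ioo j m) l ≤ ∑_(Ioo m'' m) l ≤ l m/2`, `l j ≤ l m / 2`, so the minimum is `1` and `β m ≥ a β j`: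
`l m ≤ 8 τ β j ≤ (8 τ/a) β m`. -/
def WIN_stmt : Prop := ∀ (a : ℝ) (K : ℕ) (l β : ℕ → ℝ), 8 ≤ a → (∀ k ≤ K, 0 < l k ∧ 0 < β k) →
  Qc a K l β → ∀ (τ : ℝ) (p m : ℕ), m ≤ K → 0 ≤ τ → (∀ j, p ≤ j → j < m → l j ≤ τ * β j) →
  (∀ (p' q' : ℕ) (B : ℝ), p ≤ p' → q' < m → 0 ≤ B → (∀ j ∈ Finset.Icc p' q', β j ≤ B) →
    ∑ j ∈ Finset.Icc p' q', l j ≤ 2 * τ * B) →
  l m / 2 < ∑ j ∈ Finset.Ico p m, l j → l m ≤ 8 * τ / a * β m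

/-- XL (medium): LEMMA X. uses: WIN.
PROOF. Strong induction on the length `q + 1 - p` (for all `σ, B`). If `p > q` the sum is `0`. Let `B' = max_(Icc p q) β ≤ B` (attained), and `i` the smallest index of `Icc p q` with `β i > B'/a` (the maximum has this property as `a > 1`). `σ > 0` (from `l p ≤ σ β p`).
(1) `J₀ = Icc p (i-1)` (or empty): `β ≤ B'/a` there, shorter: `∑_(J₀) l ≤ 2 σ B'/a`. (2) `l i ≤ σ B'`. (3) CLAIM: for `i < m ≤ q`: `l m ≤ (σ/a) β m`. Induction on `m` (strong). If `∑_(Ioo i m) l ≤ l m/2`: (Q) for `(i, m)`: `β m ≥ a min(1, l m/l i) β i`; `a β i > B' ≥ β m`, so the minimum is not `1`, it is `l m/l i`, and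
`l m ≤ (l i/β i) β m/a ≤ (σ/a) β m`. Otherwise WIN with `p := i+1`, `τ := σ/a` (`Ico (i+1) m = Ioo i m`; its hypothesis on sub-segments is the induction hypothesis of the outer induction: they are shorter and have slopes `≤ σ/a`): `l m ≤ (8/a)(σ/a) β m ≤ (σ/a) β m`.
(4) The rest `Icc (i+1) q` is shorter and has slopes `≤ σ/a`: its sum is `≤ 2 (σ/a) B'`. Total `≤ σ B' (1 + 4/a) ≤ (3/2) σ B' ≤ 2 σ B`. -/
def XL_stmt : Prop := ∀ (a : ℝ) (K : ℕ) (l β : ℕ → ℝ), 8 ≤ a → (∀ k ≤ K, 0 < l k ∧ 0 < β k) →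
  Qc a K l β → ∀ (σ B : ℝ) (p q : ℕ), q ≤ K → 0 ≤ σ → 0 ≤ B →
  (∀ m ∈ Finset.Icc p q, l m ≤ σ * β m ∧ β m ≤ B) → ∑ m ∈ Finset.Icc p q, l m ≤ 2 * σ * B

/-- XF (short): the whole chain. uses: WIN, XL.
PROOF. CLAIM: `l k ≤ σ β k` for all `k ≤ K`, by strong induction: if `∑_(range k) l ≤ l k/2` it is the hypothesis; otherwise WIN with `p = 0`, `τ = σ` (the hypothesis on the sub-segments is XL with the induction hypothesis; `K := K`, `q' < k ≤ K`): `l k ≤ (8/a) σ β k ≤ σ β k`. Then XL for `Icc 0 K = range (K+1)`. -/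
def XF_stmt : Prop := ∀ (a : ℝ) (K : ℕ) (l β : ℕ → ℝ) (σ B : ℝ), 8 ≤ a →
  (∀ k ≤ K, 0 < l k ∧ 0 < β k) → Qc a K l β → 0 ≤ σ → (∀ k ≤ K, β k ≤ B) →
  (∀ k ≤ K, ∑ m ∈ Finset.range k, l m ≤ l k / 2 → l k ≤ σ * β k) →
  ∑ m ∈ Finset.range (K + 1), l m ≤ 2 * σ * B

/-! ## Part B: distortion with polynomial loss -/

/-- TWO (medium): from a point near the boundary to the centre. uses: V3.KO3 (proved).
PROOF. `κ ≥ 1` the constant of KO3 for `η = 1/4`. CLAIM (induction on `k`): if `‖p - a‖ ≤ r - s`, `0 < s ≤ r`, `s ≥ (2/3)^k r`, then `‖G a - G p‖ ≤ (2κ)^k r ‖G' p‖`. `k = 0`: `s = r`, `p = a`. Step: `s ≥ (2/3)^(k+1) r`. If `‖p - a‖ ≤ s/2` let `q = a`, otherwise `q = p + (s/2)(a - p)/‖a - p‖`. Then `‖q - p‖ ≤ s/2`, and `ball p s ⊆ ball a r`: KO3 on `ball p s`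
(`q ∈ ball p (3s/4)`): `‖G' q‖ ≤ κ‖G' p‖`, `‖G q - G p‖ ≤ κ (s/2) ‖G' p‖ ≤ κ r ‖G' p‖`. If `q = a`: `κ r ≤ (2κ)^(k+1) r`, done. Otherwise `‖q - a‖ = ‖p - a‖ - s/2 ≤ r - 3s/2` (so `3s/2 ≤ r`), `3s/2 ≥ (2/3)^k r`: induction hypothesis: `‖G a - G q‖ ≤ (2κ)^k r κ ‖G' p‖`; the sum is `≤ (2κ)^(k+1) r ‖G' p‖`.
Finally let `N` with `(3/2)^N ≥ 2κ`, and `k` minimal with `(2/3)^k r ≤ s`: `k = 0` or `(3/2)^(k-1) < r/s`, so `(2κ)^k ≤ 2κ ((3/2)^(k-1))^N ≤ 2κ (r/s)^N`. `C = 2κ`. -/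
def TWO_stmt : Prop := ∃ (C : ℝ) (N : ℕ), 1 ≤ C ∧ ∀ (G : ℂ → ℂ) (a p : ℂ) (r s : ℝ), 0 < s → s ≤ r →
  DifferentiableOn ℂ G (ball a r) → InjOn G (ball a r) → ‖p - a‖ ≤ r - s →
  ‖G a - G p‖ ≤ C * r * ‖deriv G p‖ * (r / s) ^ N

/-- QD (medium): two discs. uses: TWO; V3.KO3 (proved).
PROOF. `s = min r₁ r₂/4`. Let `p = w` if `‖w - x₂‖ ≤ r₂ - s`, otherwise `p = x₂ + (r₂ - s)(w - x₂)/‖w - x₂‖`: `‖p - x₂‖ ≤ r₂ - s`, `‖p - w‖ ≤ s` (as `‖w - x₂‖ ≤ r₂`), so `‖p - x₁‖ ≤ r₁/2 + r₁/4`. KO3 for `g₁` with `η = 1/8` (`p ∈ ball x₁ (7/8 r₁)`), constant `κ`: `‖g₁ p - g₁ x₁‖ ≤ κ r₁ ‖g₁' x₁‖`, `‖g₁' p‖ ≤ κ ‖g₁' x₁‖`.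
`p` is in the open set `ball x₁ r₁ ∩ ball x₂ r₂`, where `g₁ = g₂`, so `g₂ p = g₁ p`, `g₂' p = g₁' p`. TWO for `g₂`: `‖g₂ x₂ - g₂ p‖ ≤ C r₂ κ ‖g₁' x₁‖ (r₂/s)^N`. With `X = max 1 (r₂/r₁)`: `r₂ ≤ r₁ X`, `r₂/s = 4 r₂/min r₁ r₂ ≤ 4 X`. Sum: `≤ (κ + C κ 4^N) r₁ ‖g₁' x₁‖ X^(N+1)`. -/
def QD_stmt : Prop := ∃ (C : ℝ) (N : ℕ), 1 ≤ C ∧ 1 ≤ N ∧ ∀ (g₁ g₂ : ℂ → ℂ) (x₁ x₂ w : ℂ) (r₁ r₂ : ℝ),
  0 < r₁ → 0 < r₂ → DifferentiableOn ℂ g₁ (ball x₁ r₁) → InjOn g₁ (ball x₁ r₁) →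
  DifferentiableOn ℂ g₂ (ball x₂ r₂) → InjOn g₂ (ball x₂ r₂) →
  EqOn g₁ g₂ (ball x₁ r₁ ∩ ball x₂ r₂) → ‖w - x₁‖ ≤ r₁ / 2 → ‖w - x₂‖ ≤ r₂ →
  ‖g₂ x₂ - g₁ x₁‖ ≤ C * (r₁ * ‖deriv g₁ x₁‖) * (max 1 (r₂ / r₁)) ^ N

/-! ## Part C: chains of branches -/

/-- BRU (short): uniqueness of branches.
PROOF. Copy `UP.Br_unique` (`Pool/Agent/helper26/UP/Brn.lean`), where both balls have the same radius: local uniqueness at `p` because `(f^m)'(G p) ≠ 0`, then the identity theorem on the convex set `ball y r ∩ ball y' r'`. -/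
def BRU_stmt : Prop := ∀ (n : ℕ) (c : ℂ) (m : ℕ) (y y' p : ℂ) (r r' : ℝ) (G G' : ℂ → ℂ),
  Brc n c m y r G → Brc n c m y' r' G' → p ∈ ball y r → p ∈ ball y' r' → G p = G' p →
  EqOn G G' (ball y r ∩ ball y' r')

/-- LFD (short): pull back of a disc. uses: EX.LIF (proved).
PROOF. `Φ z = y + ρ z` on the unit disc, `Φ 0 = y = f^t x`. First alternative of LIF: `G w = g ((w - y)/ρ)`. Second alternative: `j < t`, `g`, `z₀`: `m₀ = j`, `h w = g ((w - y)/ρ)`; `w₀ = Φ z₀ ∈ ball y ρ`, `h w₀ = c`, and `vv n c j = f^j (c) = f^j (g z₀) = Φ z₀ = w₀`. -/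
def LFD_stmt : Prop := ∀ (n : ℕ) (c x : ℂ) (t : ℕ) (ρ : ℝ), 1 ≤ n → 0 < ρ →
  (∃ G : ℂ → ℂ, Brc n c t ((ff n c)^[t] x) ρ G ∧ G ((ff n c)^[t] x) = x) ∨
  ∃ m₀ < t, ∃ h : ℂ → ℂ, Brc n c m₀ ((ff n c)^[t] x) ρ h ∧
    h ((ff n c)^[t] x) = (ff n c)^[t - m₀] x ∧ vv n c m₀ ∈ ball ((ff n c)^[t] x) ρ ∧
    h (vv n c m₀) = c

/-- MAX (medium): the first obstacle on the maximal disc. uses: LFD, BRU.
PROOF. `F = {j < m : ∃ r > ‖v j - v m‖, ∃ g, Brc n c j (v m) r g ∧ g (v m) = v (m-j) ∧ g (v j) = c}`, a finite set, `0 ∈ F` (`g = id`, `m ≥ 1`). `v j ≠ v m` for `j ∈ F`: otherwise `c = g (v j) = g (v m) = v (m-j)`, `m - j ≥ 1`, excluded. Let `m'` be the element of `F` with `r := ‖v m' - v m‖ > 0` minimal, `r' > r` and `g` its data.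
LFD with `x = c`, `t = m`, `ρ = r`: the second alternative gives `j < m` and `h` on `ball (v m) r`, `h (v m) = v (m-j)`, `v j ∈ ball (v m) r`, `h (v j) = c`, so `j ∈ F` with `‖v j - v m‖ < r`, contradiction. So `G` exists: `Brc n c m (v m) r G`, `G (v m) = c`. `w ↦ f^(m-m') (G w)` is a branch (`Brc.comp`) which agrees with `g` at `v m`
(`f^(m-m') c = v (m-m') = g (v m)`): BRU. -/
def MAX_stmt : Prop := ∀ (n : ℕ) (c : ℂ) (m : ℕ), 2 ≤ n → 1 ≤ m → (∀ j, 1 ≤ j → vv n c j ≠ c) →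
  ∃ (m' : ℕ) (r r' : ℝ) (G g : ℂ → ℂ), m' < m ∧ 0 < r ∧ r < r' ∧ ‖vv n c m' - vv n c m‖ = r ∧
    Brc n c m (vv n c m) r G ∧ G (vv n c m) = c ∧ Brc n c m' (vv n c m) r' g ∧
    g (vv n c m') = c ∧ ∀ w ∈ ball (vv n c m) r, (ff n c)^[m - m'] (G w) = g w

/-- CEX (short/medium): existence of chains. uses: MAX.
PROOF. Strong induction on `m` (`m = 0`: `N = 0`; otherwise MAX gives `m' < m`, shift the chain of `m'` by one), or `choose` the data of MAX and iterate. -/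
def CEX_stmt : Prop := ∀ (n : ℕ) (c : ℂ) (m : ℕ), 2 ≤ n → (∀ j, 1 ≤ j → vv n c j ≠ c) →
  ∃ (N : ℕ) (mm : ℕ → ℕ) (l l' : ℕ → ℝ) (G g : ℕ → ℂ → ℂ), mm 0 = m ∧ Chn n c N mm l l' G g

/-- CON (medium): continuation along the chain. uses: BRU.
PROOF. `e j = vv n c (mm j)`. `mm` is decreasing. For `i ≤ j ≤ k`: `‖e j - e k‖ ≤ ∑_(j ≤ m' < k) l m'` (triangle inequality); so `‖e (i+1) - e k‖ ≤ ∑_(Ioo i k) l ≤ l k/2`, and for `i < j < k`: `ball (e j) (l j) ⊆ ball (e k) (l k)`, because `l j + ‖e j - e k‖ ≤ l j + ∑_(j ≤ m' < k) l m' ≤ 2 ∑_(Ioo i k) l ≤ l k`.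
CLAIM A(j), `i ≤ j < k`: `f^(mm j - mm k) (G j w) = G k w` for `w ∈ ball (e j) (l j) ∩ ball (e k) (l k)`. Downward induction. `h_j w := f^(mm (j+1) - mm k) (g j w)` is a branch of `f^{-mm k}` on `ball (e j) (l' j) ∋ e (j+1)`, with value `f^(mm(j+1) - mm k) c = v (mm (j+1) - mm k)` at `e (j+1)`; and `G k (e (j+1))` has the same value: for `j = k-1` both are `c`
(`ce`, `ce'`); for `j < k-1` by A(j+1) at `e (j+1) ∈ ball (e (j+1)) (l (j+1)) ⊆ ball (e k) (l k)`. BRU at `p = e (j+1)`: `h_j = G k` on `ball (e j) (l' j) ∩ ball (e k) (l k)`. On `ball (e j) (l j)`: `f^(mm j - mm k) (G j w) = f^(mm(j+1) - mm k) (f^(mm j - mm (j+1)) (G j w)) = h_j w` (`co`). -/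
def CON_stmt : Prop := ∀ (n : ℕ) (c : ℂ) (N : ℕ) (mm : ℕ → ℕ) (l l' : ℕ → ℝ) (G g : ℕ → ℂ → ℂ),
  Chn n c N mm l l' G g → ∀ i k : ℕ, i < k → k < N → ∑ m ∈ Finset.Ioo i k, l m ≤ l k / 2 →
  ‖vv n c (mm (i + 1)) - vv n c (mm k)‖ ≤ ∑ m ∈ Finset.Ioo i k, l m ∧
  ∀ w ∈ ball (vv n c (mm i)) (l i) ∩ ball (vv n c (mm k)) (l k),
    (ff n c)^[mm i - mm k] (G i w) = G k w

/-- CO0 (short/medium): continuation from the disc `ball y ρ`. uses: BRU, CON.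
PROOF. `e 0 ∈ ball y ρ`. `k = 0`: BRU at `e 0`. `k ≥ 1`: `‖e 0 - e k‖ ≤ ∑_(range k) l ≤ l k/2`. CON with `i = 0` (`∑_(Ioo 0 k) ≤ ∑_(range k)`) at the point `e 0 ∈ ball (e 0) (l 0) ∩ ball (e k) (l k)`: `G k (e 0) = f^(mm 0 - mm k) (c)`. `w ↦ f^(mm 0 - mm k) (h w)` is a branch of `f^{-mm k}` on `ball y ρ` (`Brc.comp`) with the same value at `e 0`: BRU. -/
def CO0_stmt : Prop := ∀ (n : ℕ) (c : ℂ) (N : ℕ) (mm : ℕ → ℕ) (l l' : ℕ → ℝ) (G g : ℕ → ℂ → ℂ)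
  (y : ℂ) (ρ : ℝ) (h : ℂ → ℂ), Chn n c N mm l l' G g → Brc n c (mm 0) y ρ h →
  vv n c (mm 0) ∈ ball y ρ → h (vv n c (mm 0)) = c → ∀ k < N,
  ∑ m ∈ Finset.range k, l m ≤ l k / 2 →
  ‖vv n c (mm 0) - vv n c (mm k)‖ ≤ ∑ m ∈ Finset.range k, l m ∧
  ∀ w ∈ ball y ρ ∩ ball (vv n c (mm k)) (l k), (ff n c)^[mm 0 - mm k] (h w) = G k w

/-- CHA (long): THE CHAIN THEOREM. uses: XF, QD, CEX, CON, CO0.
PROOF. `C₁, N₁` from QD; `C = max (8^N₁ C₁) (3^N₁ C₁)`. CEX for `m = m₀`: chain of length `N`; `e k = vv n c (mm k)`; `e N = c`. `K :=` the first index `k` with `4/5 ρ ≤ l k` or `9/5 ρ ≤ ‖e (k+1) - y‖`; it exists and `K < N` (`e 0 ∈ ball y ρ`, `e N = c ∉ ball y (9/5 ρ)`, so `N ≥ 1` and `k = N-1` qualifies). For `k ≤ K`: `‖e k - y‖ < 9/5 ρ`, `k < N`, `mm k ≥ 1`.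
`λ k := l k` for `k < K` (`< 4/5 ρ`), `λ K := min (l K) (4/5 ρ)`. `b k := λ k ‖G k'(e k)‖ > 0` (`Brc.inj` and KO0, or the chain rule: `(f^m)'(G w) G'(w) = 1`), `β k := b k ^ (1/N₁)` (real power). The hypothesis on the discs (restrict `G k` to `ball (e k) (λ k)`): `b k ≤ B`, `C b k ≤ ‖v s - c‖` for `1 ≤ s ≤ mm k`.
(Q) for `(λ, β)`, `a = 8`: let `i < k ≤ K`, `∑_(Ioo i k) λ ≤ λ k/2` (`λ = l` on `Ioo i k`, `λ k ≤ l k`). CON: `g₂ = f^(mm i - mm k) ∘ G i` on `ball (e i) (l i)` and `g₁ = G k` on `ball (e k) (λ k)` agree on the intersection; QD with `x₁ = e k`, `r₁ = λ k`, `x₂ = e i`, `r₂ = l i = λ i`, `w = e (i+1)` (`‖w - x₁‖ ≤ ∑_(Ioo i k) l ≤ λ k/2`).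
`g₂ (e i) = v (mm i - mm k)`, `g₁ (e k) = c`: `C b i ≤ ‖v (mm i - mm k) - c‖ ≤ C₁ b k (max 1 (λ i/λ k))^N₁`. `N₁`-th roots: `β k ≥ (C/C₁)^(1/N₁) min(1, λ k/λ i) β i ≥ 8 min(1, λ k/λ i) β i`.
(R0): if `∑_(range k) λ ≤ λ k/2`, `k ≤ K`: CO0 and QD with `x₁ = e k`, `r₁ = λ k`, `g₂ = f^(mm 0 - mm k) ∘ h` on `ball y ρ`, `x₂ = y`, `w = e 0`: `η ≤ ‖f^(mm 0 - mm k) (h y) - c‖ ≤ C₁ b k (ρ/λ k)^N₁` (`λ k < ρ`), so `λ k ≤ σ β k`, `σ = ρ (C₁/η)^(1/N₁)`.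
XF: `∑_(k ≤ K) λ k ≤ 2 σ B^(1/N₁)`. But `∑_(k ≤ K) λ k ≥ 4/5 ρ`: either `λ K = 4/5 ρ`, or all `λ k = l k` and `9/5 ρ ≤ ‖e (K+1) - y‖ ≤ ‖e 0 - y‖ + ∑_(k ≤ K) l k`. So `4/5 ρ ≤ 2 ρ (C₁ B/η)^(1/N₁)`: `η ≤ (5/2)^N₁ C₁ B ≤ C B`. -/
def CHA_stmt : Prop := ∃ C : ℝ, 1 ≤ C ∧ ∀ (n : ℕ) (c y : ℂ) (ρ B η : ℝ) (m₀ : ℕ) (h : ℂ → ℂ), 2 ≤ n →
  0 < ρ → 0 < B → 0 < η → (∀ j, 1 ≤ j → vv n c j ≠ c) → Brc n c m₀ y ρ h → vv n c m₀ ∈ ball y ρ →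
  h (vv n c m₀) = c → (∀ j ≤ m₀, η ≤ ‖(ff n c)^[j] (h y) - c‖) → 9 / 5 * ρ ≤ ‖c - y‖ →
  (∀ (m : ℕ) (l : ℝ) (G : ℂ → ℂ), 1 ≤ m → m ≤ m₀ → ‖vv n c m - y‖ < 9 / 5 * ρ → 0 < l →
    l ≤ 4 / 5 * ρ → Brc n c m (vv n c m) l G → G (vv n c m) = c →
    l * ‖deriv G (vv n c m)‖ ≤ B ∧
      ∀ s, 1 ≤ s → s ≤ m → C * (l * ‖deriv G (vv n c m)‖) ≤ ‖vv n c s - c‖) → η ≤ C * B

/-! ## Part D: expanding scales -/

/-- KOB (medium): discs about the critical point. uses: V3.KO0, V3.KO1, V3.KO3 (proved).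
PROOF. `K₁` from KO1, `K₃` from KO3 (`η = 1/2`), `K = 4 K₁² K₃`. `b = l ‖G' (v m)‖`. KO1: `ball c (b/K₁) ⊆ G '' ball (v m) l` (`G (v m) = c`). (i) `‖u‖^n < b/K`: `f u = u^n + c ∈ ball c (b/K₁)`, `f u = G w`, `f^(m+1) u = f^m (G w) = w ∈ ball (v m) l`.
(ii) `F = f^s` on `ball c (b/K₁)`, `1 ≤ s ≤ m`: injective, because `f^m` is injective on `G '' ball (v m) l` (`f^m (G w) = w`). `F ≠ c` there: `F (G w) = c` gives `f^(s-1) (G w) = 0`, so `(f^m)'(G w) = 0` (chain rule, `f' 0 = 0`, `n ≥ 2`), but `(f^m)'(G w) G' w = 1`. If `b = 0` nothing is to prove. `r = b/K₁`. KO1 for `F`: `r ‖F' c‖/K₁ ≤ ‖v s - c‖` (`F c = v s`).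
KO3 for `F` on `ball c r`: `‖F a - v s‖ ≤ K₃ ‖a - c‖ ‖F' c‖` for `‖a - c‖ < r/2`. For `a = f u`, `‖a - c‖ = ‖u‖^n < b/K = r/(4 K₁ K₃)`: `‖f^s (f u) - v s‖ ≤ (1/4) ‖v s - c‖`. `(f^s u)^n = f^(s+1) u - c`, so `‖f^s u‖^n ≤ (5/4) ‖v s - c‖`. -/
def KOB_stmt : Prop := ∃ K : ℝ, 1 ≤ K ∧ ∀ (n : ℕ) (c : ℂ) (m : ℕ) (G : ℂ → ℂ) (l : ℝ), 2 ≤ n → 0 < l →
  Brc n c m (vv n c m) l G → G (vv n c m) = c →
  (∀ u : ℂ, ‖u‖ ^ n < l * ‖deriv G (vv n c m)‖ / K → (ff n c)^[m + 1] u ∈ ball (vv n c m) l) ∧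
  ∀ s, 1 ≤ s → s ≤ m → ∀ u : ℂ, ‖u‖ ^ n < l * ‖deriv G (vv n c m)‖ / K →
    ‖(ff n c)^[s] u‖ ^ n ≤ 3 / 2 * ‖vv n c s - c‖

/-- EXQ (medium): expanding scales. uses: EX.LIF, EX.MOB (proved).
PROOF. `u = 0`: `f^L 0 = v (L-1) ∈ ball 0 (4ξ)`. Let `m ≤ L-1` be the first index with `‖v m‖ < 5ξ`. The branch `G` of `f^{-m}` on `ball 0 (5ξ)` with `G (v m) = c`: LIF with `Φ z = 5ξ tau a z`, `a = v m/(5ξ) ∈ ball 0 1`, `Φ 0 = v m = f^m c`; the second alternative gives `j < m` and `c = g z₀`, `v j = f^j (g z₀) = Φ z₀ ∈ ball 0 (5ξ)`, contradiction. `G w = g (tau (-a) (w/(5ξ)))` (MOB).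
Suppose `ξ^n/M ≤ τ`. For `w ∈ ball 0 (22/5 ξ)`: `Expd` gives `‖G w - c‖ < ξ^n/M ≤ τ`, choose `u` with `u^n = G w - c` (`IsAlgClosed.exists_pow_nat_eq`): `‖u‖^n < τ`, `f^(m+1) u = f^m (G w) = w`. If `L = m+1`: `w = f^L u ∈ ball 0 (4ξ)` for all `w ∈ ball 0 (22/5 ξ)`: false for `w = 21/5 ξ`. If `L = m+1+p`, `p ≥ 1`: `f^p w = f^L u ∈ ball 0 (4ξ) ⊆ ball 0 (22/5 ξ)`:
`f^p` maps `ball 0 (22/5 ξ)` into itself, so all orbits of points of this ball are bounded and the ball is in `filled n c` (a point outside `filled` escapes: `exists_of_notMem_filled`), contradiction to `interior = ∅`. -/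
def EXQ_stmt : Prop := ∀ (n : ℕ) (c : ℂ) (M ξ τ : ℝ) (L : ℕ), 2 ≤ n → 0 < M → 0 < ξ → 0 < τ → 1 ≤ L →
  interior (filled n c) = ∅ → Expd n c M ξ →
  (∀ u : ℂ, ‖u‖ ^ n < τ → (ff n c)^[L] u ∈ ball (0 : ℂ) (4 * ξ)) → τ < ξ ^ n / M

/-- MIC (medium): the hypothesis of CHA at a small scale `R` (`ρ = 11/10 R`). uses: KOB, EXQ.
PROOF. `K` from KOB, `M₁ = 2 C K`. `b = l ‖G' (v m)‖`; if `b = 0` trivial (`0 ≤`). (i): `ball (v m) l ⊆ ball 0 (4R)` (`‖y‖ + 99/50 R + 22/25 R ≤ 386/100 R`), EXQ with `τ = b/K`, `L = m+1`, `ξ = R`: `b < K R^n/M ≤ R^n/(2C)`. (ii) `1 ≤ s ≤ m`, `z = f^s 0`, `‖z‖^n = ‖v s - c‖ > 0` (`vv_sub`). If `‖z‖ ≤ ξ₀`: EXQ with `ξ = ‖z‖`, `L = s`, `τ = b/K`: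
`‖u‖^n < τ` gives `‖f^s u‖^n ≤ 3/2 ‖z‖^n < (4‖z‖)^n`. So `b/K < ‖z‖^n/M`, `C b ≤ ‖z‖^n`. If `‖z‖ > ξ₀ ≥ R`: `C b ≤ R^n/2 ≤ ‖z‖^n`. -/
def MIC_stmt : Prop := ∀ C : ℝ, 1 ≤ C → ∃ M₁ : ℝ, 1 ≤ M₁ ∧ ∀ (n : ℕ) (c y : ℂ) (M ξ₀ R : ℝ), 2 ≤ n →
  M₁ ≤ M → 0 < R → R ≤ ξ₀ → interior (filled n c) = ∅ → (∀ j, 1 ≤ j → vv n c j ≠ c) →
  (∀ ξ, 0 < ξ → ξ ≤ ξ₀ → Expd n c M ξ) → ‖y‖ ≤ R → ∀ (m : ℕ) (l : ℝ) (G : ℂ → ℂ), 1 ≤ m →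
  ‖vv n c m - y‖ < 99 / 50 * R → 0 < l → l ≤ 22 / 25 * R → Brc n c m (vv n c m) l G →
  G (vv n c m) = c → l * ‖deriv G (vv n c m)‖ ≤ R ^ n / (2 * C) ∧
    ∀ s, 1 ≤ s → s ≤ m → C * (l * ‖deriv G (vv n c m)‖) ≤ ‖vv n c s - c‖

/-- BBD (short/medium): long branches are small. uses: V3.KO1 (proved), `UP.Blow`, `UP.Blow_der`.
PROOF. `C₁` from KO1. `UP.Blow` with the radius `τ/C₁`: `m₀` such that for `m ≥ m₀` there is `y ∈ ball c (τ/C₁)` with `3 + ‖c‖ < ‖f^m y‖`; `UP.Blow_der` (`x = c`, radius `l ≤ δ ≤ 1`): `l ‖G' (v m)‖ ≤ C₁ τ/C₁ = τ`. For `m < m₀`: `‖(f^m)'(c)‖ ‖G' (v m)‖ = 1` (`UP.Br_deriv`), so `‖G' (v m)‖ ≤ D_m := 1/‖(f^m)'(c)‖` (a number independent of `G`); `δ ≤ τ/(1 + ∑_(m < m₀) D_m)`. -/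
def BBD_stmt : Prop := ∀ (n : ℕ) (c : ℂ), 2 ≤ n → interior (filled n c) = ∅ → c ∈ filled n c →
  ∀ τ > (0 : ℝ), ∃ δ : ℝ, 0 < δ ∧ δ ≤ 1 ∧ ∀ (m : ℕ) (l : ℝ) (G : ℂ → ℂ), 0 < l → l ≤ δ →
  Brc n c m (vv n c m) l G → G (vv n c m) = c → l * ‖deriv G (vv n c m)‖ ≤ τ

/-- MAC (short/medium): the hypothesis of CHA for small discs anywhere. uses: KOB, EXQ, BBD.
PROOF. `K` from KOB, `M₁ = C K`. BBD for `τ' = min τ (ξ₀^n/C)`: `δ`, `b ≤ τ'`. For `1 ≤ s ≤ m`, `z = f^s 0`, `‖z‖^n = ‖v s - c‖ > 0`: if `‖z‖ > ξ₀`: `C b ≤ ξ₀^n ≤ ‖z‖^n`; if `‖z‖ ≤ ξ₀`: as in MIC (ii). -/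
def MAC_stmt : Prop := ∀ C : ℝ, 1 ≤ C → ∃ M₁ : ℝ, 1 ≤ M₁ ∧ ∀ (n : ℕ) (c : ℂ) (M ξ₀ : ℝ), 2 ≤ n →
  M₁ ≤ M → 0 < ξ₀ → interior (filled n c) = ∅ → c ∈ filled n c → (∀ j, 1 ≤ j → vv n c j ≠ c) →
  (∀ ξ, 0 < ξ → ξ ≤ ξ₀ → Expd n c M ξ) → ∀ τ > (0 : ℝ), ∃ δ : ℝ, 0 < δ ∧ δ ≤ 1 ∧
  ∀ (m : ℕ) (l : ℝ) (G : ℂ → ℂ), 1 ≤ m → 0 < l → l ≤ δ → Brc n c m (vv n c m) l G →
  G (vv n c m) = c → l * ‖deriv G (vv n c m)‖ ≤ τ ∧
    ∀ s, 1 ≤ s → s ≤ m → C * (l * ‖deriv G (vv n c m)‖) ≤ ‖vv n c s - c‖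

/-- BRX (medium): orbits away from `0` have univalent pull-backs of a definite size. uses: CHA, MAC, LFD.
PROOF. `C` from CHA, `M₁` from MAC for this `C`. Given `ε`: `η = ε^n`, `B = ε^n/(2C)`, `δ₀` from MAC for `τ = B`, `δ = min (min δ₀ 1) (5/9 ε^n)/2` or similar: `4/5 δ ≤ δ₀`, `9/5 δ ≤ ε^n`. Let `x ∈ UP.Lam n c ε`, `t`. LFD with `ρ = δ`: the first alternative is the claim. Second alternative: `m₀ < t`, `h`, `y = f^t x`. `f^j (h y) - c = f^(t-m₀+j) x - c = (f^(t-m₀+j-1) x)^n`, of norm `≥ ε^n` (`j ≤ m₀`).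
`‖c - y‖ = ‖f^(t-1) x‖^n ≥ ε^n ≥ 9/5 δ`. CHA: `ε^n ≤ C B = ε^n/2`, contradiction. -/
def BRX_stmt : Prop := ∃ M₁ : ℝ, 1 ≤ M₁ ∧ ∀ (n : ℕ) (c : ℂ) (M ξ₀ : ℝ), 2 ≤ n → M₁ ≤ M → 0 < ξ₀ →
  interior (filled n c) = ∅ → c ∈ filled n c → (∀ j, 1 ≤ j → vv n c j ≠ c) →
  (∀ ξ, 0 < ξ → ξ ≤ ξ₀ → Expd n c M ξ) → ∀ ε > (0 : ℝ), ∃ δ : ℝ, 0 < δ ∧ δ ≤ 1 ∧
  ∀ (t : ℕ), ∀ x ∈ UP.Lam n c ε, UP.Br n c δ t x

/-- LMZ (short): area zero. uses: V3.KO0, V3.KO1, V3.KO3 (proved).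
PROOF. The proof of `UP.LamZero` (`Pool/Agent/helper26/UP/NRec.lean`) from the line after `BRA` on, with the hypothesis instead of `BRA`. -/
def LMZ_stmt : Prop := ∀ (n : ℕ) (c : ℂ) (ε δ : ℝ), 2 ≤ n → 0 < ε → 0 < δ → δ ≤ 1 →
  interior (filled n c) = ∅ → (∀ (t : ℕ), ∀ x ∈ UP.Lam n c ε, UP.Br n c δ t x) →
  volume (UP.Lam n c ε) = 0

/-- RCT (medium): the contradiction at a first entry time. uses: CHA, MIC, LFD.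
PROOF. `C` from CHA, `M₁` from MIC. `T` from `Star` for `q = 10/11`. Choose `R > 0` with `R < ‖f^k x‖` for all `k < T`, `R ≤ ξ₀`, `3R ≤ ‖c‖` (`c ≠ 0`: otherwise `v 1 = 0 ^ n + 0 = c`). `t` = the first `k` with `‖f^k x‖ ≤ R` (`Nat.find`), `t ≥ T`, `‖f^k x‖ > R` for `k < t`. `y = f^t x`, `ρ = 11/10 R`. LFD: first alternative `G`: `Φ z = y + ρ z`, `g z = G (Φ z)`, `b = -y/ρ`, `‖b‖ ≤ 10/11`,
`Φ b = 0`: contradiction to `Star`. Second alternative: `m₀ < t`, `h`: `f^j (h y) - c = (f^(t-m₀+j-1) x)^n`, norm `≥ R^n =: η` (`t-m₀+j-1 < t`). `‖c - y‖ ≥ 2R ≥ 9/5 ρ`. MIC (`9/5 ρ = 99/50 R`, `4/5 ρ = 22/25 R`) with `B = R^n/(2C)`. CHA: `R^n ≤ C B = R^n/2`, contradiction. -/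
def RCT_stmt : Prop := ∃ M₁ : ℝ, 1 ≤ M₁ ∧ ∀ (n : ℕ) (c x : ℂ) (M ξ₀ : ℝ), 2 ≤ n → M₁ ≤ M → 0 < ξ₀ →
  interior (filled n c) = ∅ → (∀ j, 1 ≤ j → vv n c j ≠ c) →
  (∀ ξ, 0 < ξ → ξ ≤ ξ₀ → Expd n c M ξ) → (∀ k, (ff n c)^[k] x ≠ 0) →
  (∀ ε > (0 : ℝ), ∃ k : ℕ, ‖(ff n c)^[k] x‖ < ε) → ¬ ∃ T : ℕ, EX.Star n c x (10 / 11) T

/-- FLN (medium): no line field. uses: BRX, LMZ, RCT; EX.STR, EX.NZR (proved).
PROOF. `M = max` of the constants of BRX and RCT. If all small scales `ξ ≤ ξ₀` are expanding: for `ε = 1/(k+1)` BRX and LMZ: `volume (UP.Lam n c ε) = 0`; so almost every `x ∈ filled n c` comes arbitrarily close to `0`. If `μ` is an invariant line field (support in the Julia set `⊆ filled n c`, `juliaSet_subset`), there is `x` with `μ x ≠ 0`, the property of STR (`q = 10/11`), NZR and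
`∀ ε, ∃ k, ‖f^k x‖ < ε` (as in `Pool/Agent/helper59/EX/FI2.lean`): contradiction to RCT. -/
def FLN_stmt : Prop := ∃ M : ℝ, 1 ≤ M ∧ ∀ (n : ℕ) (c : ℂ) (ξ₀ : ℝ), 3 ≤ n → 0 < ξ₀ →
  interior (filled n c) = ∅ → c ∈ filled n c → (∀ j, 1 ≤ j → vv n c j ≠ c) →
  (∀ ξ, 0 < ξ → ξ ≤ ξ₀ → Expd n c M ξ) → ¬ HasInvariantLineField (ff n c)

end NR
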